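import Pool.Agent.H537.TR.Gen
import Pool.Agent.H537.GP.Poly

/-! Goldbach pairs in progressions: one parity. -/

set_option autoImplicit false
set_option maxHeartbeats 4000000

open Finset Filter Polynomial

namespace Pool.Agent.H537.TG

open Pool.Agent.H537.FG Pool.Agent.N914.MR Pool.Agent.H537.FT Pool.Agent.H537.GP Pool.Agent.H537.TR

/-- The residues `r (mod q)` with `r (n - r)` coprime to `q`. -/
def res (n q : ℕ) : Finset ℕ := (range q).filter (fun r : ℕ => Int.gcd (r * ((n : ℤ) - r)) q = 1)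

/-- The sum of `log p * log (n - p)` over the primes `p ≤ y`, `p ≡ a (mod q)`, for which `n - p` is prime. -/
noncomputable def th (n q a y : ℕ) : ℝ :=
  ∑ p ∈ (Icc 1 y).filter (fun p => p ≡ a [MOD q] ∧ p.Prime ∧ (n - p).Prime), Real.log p * Real.log ((n - p : ℕ) : ℝ)

/-- the forbidden classes -/
def V (n p a : ℕ) : Prop := (p : ℤ) ∣ (a : ℤ) * ((n : ℤ) - a)

/-- the polynomial -/
noncomputable def G (n : ℕ) : ℤ[X] := X * (C (n : ℤ) - X)

theorem G_eval (n : ℕ) (a : ℤ) : (G n).eval a = a * ((n : ℤ) - a) := by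
  unfold G
  simp

theorem V_iff (n p a : ℕ) : V n p a ↔ (p : ℤ) ∣ (G n).eval (a : ℤ) := by
  unfold V
  rw [G_eval]

theorem V_per (n : ℕ) : ∀ p a b : ℕ, p.Prime → a ≡ b [MOD p] → (V n p a ↔ V n p b) := by
  intro p a b _ h
  rw [V_iff, V_iff]
  exact dvd_congr (G n) h

theorem omV_eq (n p : ℕ) : omV (V n) p = omG (G n) p := by
  classical
  unfold omV omG
  congr 1
  apply filter_congr
  intro a _
  exact V_iff n p a

theorem om_le {n p : ℕ} (hn : Even n) (hp : p.Prime) : omG (G n) p < p ∧ omG (G n) p ≤ 2 := by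
  classical
  have hsub : (range p).filter (fun a : ℕ => (p : ℤ) ∣ (G n).eval (a : ℤ)) ⊆ {0, n % p} := by
    intro a ha
    rw [mem_filter, mem_range, G_eval] at ha
    rw [mem_insert, mem_singleton]
    rcases Int.Prime.dvd_mul' hp ha.2 with h | h
    · left
      exact Nat.eq_zero_of_dvd_of_lt (Int.natCast_dvd_natCast.mp h) ha.1
    · right
      have h1 : n ≡ a [MOD p] := by
        rw [Nat.modEq_iff_dvd]
        have : (a : ℤ) - n = -((n : ℤ) - a) := by ring
        rw [this]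
        exact (dvd_neg).mpr h
      have h2 : n % p = a % p := h1
      rw [h2, Nat.mod_eq_of_lt ha.1]
  have h2 : omG (G n) p ≤ 2 := (card_le_card hsub).trans card_le_two
  refine ⟨?_, h2⟩
  rcases hp.eq_two_or_odd' with h | h
  · -- p = 2
    subst h
    have h3 : n % 2 = 0 := Nat.even_iff.mp hn
    rw [h3] at hsub
    have : omG (G n) 2 ≤ 1 := by
      refine (card_le_card hsub).trans ?_
      simp
    omega
  · have := hp.two_le
    obtain ⟨m, hm⟩ := h
    omega

theorem res_card (n q : ℕ) : (res n q).card = rhoG (G n) q := by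
  unfold res rhoG
  congr 1
  apply filter_congr
  intro r _
  rw [G_eval]

theorem gg_eq_res {n q : ℕ} (hn : Even n) (hq : 1 ≤ q) : gg (hV (V n)) q / q = 1 / ((res n q).card : ℝ) := by
  rw [res_card, ← gg_hG (fun p hp => (om_le hn hp).1) hq]
  congr 1
  unfold gg
  refine prod_congr rfl fun p _ => ?_
  unfold hV hG
  rw [omV_eq]

theorem res_pos {n q : ℕ} (hn : Even n) (hq : 1 ≤ q) : 0 < (res n q).card := by
  have h1 := gg_eq_res hn hq
  by_contra hc
  have h0 : (res n q).card = 0 := by omega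
  rw [h0] at h1
  norm_num at h1
  have hgg : 0 < gg (hV (V n)) q := by
    unfold gg
    apply prod_pos
    intro p hp
    have hpp := Nat.prime_of_mem_primeFactors hp
    have h8 : omV (V n) p < p := by
      rw [omV_eq]
      exact (om_le hn hpp).1
    have := hV_nonneg h8
    linarith
  rcases h1 with h1 | h1
  · linarith
  · omega

open Classical in
/-- the weight -/
noncomputable def W (n X k : ℕ) : ℝ :=
  if k ≤ X ∧ k.Prime ∧ (n - k).Prime then Real.log k * Real.log ((n - k : ℕ) : ℝ) else 0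

theorem cntW_eq {n X y : ℕ} (hy : y ≤ X) (a q : ℕ) : cntW (W n X) y a q = th n q a y := by
  classical
  unfold cntW W th
  rw [← filter_filter, sum_filter (fun p : ℕ => p.Prime ∧ (n - p).Prime)]
  refine sum_congr rfl fun k hk => ?_
  rw [mem_filter, mem_Icc] at hk
  have : k ≤ X := by omega
  simp only [this, true_and]

/-- the estimate for the small moduli -/
def SmallOk (B η : ℝ) (n : ℕ) (S : ℝ) : Prop :=
  ∀ q a y : ℕ, 1 ≤ q → (q : ℝ) ≤ Real.log ((n / 2 : ℕ) : ℝ) ^ (B + 1) → Int.gcd (a * ((n : ℤ) - a)) q = 1 →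
    ((n / 2 : ℕ) : ℝ) / Real.log ((n / 2 : ℕ) : ℝ) ^ (B + 1) ≤ y → y ≤ n / 2 →
    |th n q a y - S * y / (res n q).card| ≤ η * (S * y / (res n q).card)

theorem gcd_iff (n a q : ℕ) : Int.gcd (a * ((n : ℤ) - a)) q = 1 ↔ ∀ p : ℕ, p.Prime → p ∣ q → ¬ V n p a := by
  constructor
  · intro h p hp hpq hV
    have h1 : p ∣ Int.gcd (a * ((n : ℤ) - a)) q := by
      rw [← Int.natCast_dvd_natCast]
      exact Int.dvd_coe_gcd hV (Int.natCast_dvd_natCast.mpr hpq)
    rw [h] at h1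
    exact hp.one_lt.ne' (Nat.dvd_one.mp h1)
  · intro h
    by_contra hc
    obtain ⟨p, hp, hd⟩ := Nat.exists_prime_and_dvd hc
    have h1 : (p : ℤ) ∣ (Int.gcd (a * ((n : ℤ) - a)) q : ℤ) := Int.natCast_dvd_natCast.mpr hd
    refine h p hp ?_ ?_
    · exact Int.natCast_dvd_natCast.mp (h1.trans (Int.gcd_dvd_right _ _))
    · exact h1.trans (Int.gcd_dvd_left _ _)

/-- the moduli -/
def mods (n Q a : ℕ) : Finset ℕ := (Ioc Q (2 * Q)).filter (fun q : ℕ => Int.gcd (a * ((n : ℤ) - a)) q = 1)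

theorem one_par (B ε : ℝ) (hB : 0 < B) (hε : 0 < ε) (K : ℕ) (hK2 : 2 ≤ K) (hBK : B < K) :
    ∃ η₀ : ℝ, 0 < η₀ ∧ ∀ η : ℝ, 0 < η → η ≤ η₀ → ∃ X₀ : ℕ, ∀ n : ℕ, X₀ ≤ n → Even n → ∀ S : ℝ, 0 < S →
      SmallOk B η n S →
      ∃ a : ℕ, 1 ≤ a ∧ (a : ℝ) ≤ ((n / 2 : ℕ) : ℝ) ^ ε ∧
        1 ≤ ⌊((n / 2 : ℕ) : ℝ) / Real.log ((n / 2 : ℕ) : ℝ) ^ B⌋₊ ∧
        (∃ p : ℕ, p.Prime ∧ p < a ∧ V n p a) ∧
        (mods n ⌊((n / 2 : ℕ) : ℝ) / Real.log ((n / 2 : ℕ) : ℝ) ^ B⌋₊ a).Nonempty ∧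
        η * ∑ q ∈ mods n ⌊((n / 2 : ℕ) : ℝ) / Real.log ((n / 2 : ℕ) : ℝ) ^ B⌋₊ a,
            S * ((n / 2 : ℕ) : ℝ) / (res n q).card ≤
          (-1) ^ K * (∑ q ∈ mods n ⌊((n / 2 : ℕ) : ℝ) / Real.log ((n / 2 : ℕ) : ℝ) ^ B⌋₊ a, th n q a (n / 2) -
            ∑ q ∈ mods n ⌊((n / 2 : ℕ) : ℝ) / Real.log ((n / 2 : ℕ) : ℝ) ^ B⌋₊ a,
              S * ((n / 2 : ℕ) : ℝ) / (res n q).card) := by
  classical
  have hK0 : (0 : ℝ) < K := by
    have : 0 < K := by omega
    exact_mod_cast this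
  obtain ⟨c0, hc0, w0, hroot⟩ := root_range (X : ℤ[X]) (by rw [Polynomial.map_X]; exact irreducible_X)
    (θ := 1 / (2 * (K : ℝ))) (by positivity)
  obtain ⟨η₀, hη₀, hpar⟩ := parityV 2 c0 hc0 B hB K hK2 hBK
  refine ⟨η₀, hη₀, fun η hη hηle => ?_⟩
  have hlogX : Tendsto (fun X : ℕ => Real.log (X : ℝ)) atTop atTop :=
    Real.tendsto_log_atTop.comp tendsto_natCast_atTop_atTop
  have hL1 := hlogX.eventually (parL B hB K hK2 1 1 w0 one_pos one_pos)
  obtain ⟨X1, hX1⟩ := eventually_atTop.mp ((hpar η hη hηle 4 (by norm_num) ε hε).and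
    (hL1.and (eventually_ge_atTop 4)))
  refine ⟨2 * X1 + 2, fun n hn hne S hS hsm => ?_⟩
  set N := n / 2 with hN
  obtain ⟨h1, h2, h3⟩ := hX1 N (by omega)
  set L := Real.log (N : ℝ) with hL
  have hN0 : (0 : ℝ) < N := by
    have : 0 < N := by omega
    exact_mod_cast this
  obtain ⟨a, ha1, ha2, ha3, hQ1, ⟨p0, hp0, hp1, hp2, hp3⟩, ha4⟩ := h1 (V n) (fun a => a * (n - a)) N (W n N)
    (fun y => (y : ℝ)) 1 S (V_per n)
    (by
      intro p hp
      rw [omV_eq]
      exact om_le hne hp)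
    (by
      intro a ha haN _
      refine ⟨Nat.mul_ne_zero (by omega) (by omega), ?_, ?_⟩
      · have e1 : a * (n - a) ≤ N * (4 * N) := Nat.mul_le_mul haN (by omega)
        have e2 : ((a * (n - a) : ℕ) : ℝ) ≤ ((N * (4 * N) : ℕ) : ℝ) := by exact_mod_cast e1
        have e3 : (4 : ℝ) ≤ N := by exact_mod_cast h3
        calc ((a * (n - a) : ℕ) : ℝ) ≤ N * (4 * N) := by exact_mod_cast e1
          _ ≤ N * (N * N) := by
              apply mul_le_mul_of_nonneg_left _ hN0.le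
              exact mul_le_mul_of_nonneg_right e3 hN0.le
          _ ≤ (N * (N * N)) * N := le_mul_of_one_le_right (by positivity) (by linarith)
          _ = (N : ℝ) ^ (4 : ℝ) := by
              rw [show (4 : ℝ) = ((4 : ℕ) : ℝ) by norm_num, Real.rpow_natCast]
              ring
      · intro p hp hV
        unfold V at hV
        have e1 : (a : ℤ) * ((n : ℤ) - a) = ((a * (n - a) : ℕ) : ℤ) := by
          push_cast [show a ≤ n by omega]
          ring
        rw [e1, Int.natCast_dvd_natCast] at hV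
        exact hV)
    (by
      obtain ⟨g1, g2, g3, g4, g5, g6, g7⟩ := h2
      have hw : w0 ≤ wF B K L := by exact_mod_cast g1
      refine (hroot (wF B K L) (zF B K L) hw g3).trans ?_
      apply sum_le_sum_of_subset_of_nonneg
      · intro p hp
        rw [mem_filter] at hp ⊢
        refine ⟨hp.1, hp.2.1, 0, ?_⟩
        unfold V
        simp
      · intro p _ _
        positivity)
    (by linarith) le_rfl one_pos hS
    (by
      intro k hk p hp hV
      unfold W at hk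
      rw [ne_eq, ite_eq_right_iff, Classical.not_imp] at hk
      obtain ⟨⟨hk1, hk2, hk3⟩, _⟩ := hk
      unfold V at hV
      rcases Int.Prime.dvd_mul' hp hV with h | h
      · have := (Nat.prime_dvd_prime_iff_eq hp hk2).mp (Int.natCast_dvd_natCast.mp h)
        omega
      · have e1 : (n : ℤ) - k = ((n - k : ℕ) : ℤ) := by
          push_cast [show k ≤ n by omega]
          ring
        rw [e1, Int.natCast_dvd_natCast] at h
        have := (Nat.prime_dvd_prime_iff_eq hp hk3).mp h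
        omega)
    (by
      intro y _ _
      have e1 : (y : ℝ) - 1 * y = 0 := by ring
      rw [e1, abs_zero]
      positivity)
    (by
      intro q a y hq hqL hg hy1 hy2
      rw [gg_eq_res hne hq, cntW_eq hy2]
      have e1 : S * (1 / ((res n q).card : ℝ)) * (y : ℝ) = S * y / (res n q).card := by ring
      rw [e1]
      exact hsm q a y hq hqL ((gcd_iff n a q).mpr hg) hy1 hy2)
  set Q := ⌊(N : ℝ) / L ^ B⌋₊ with hQd
  have hfil : (Ioc Q (2 * Q)).filter (fun q : ℕ => ∀ p : ℕ, p.Prime → p ∣ q → ¬ V n p a) = mods n Q a := by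
    unfold mods
    apply filter_congr
    intro q _
    exact (gcd_iff n a q).symm
  refine ⟨a, ha1, ha2, hQ1, ⟨p0, hp1, hp2, hp3⟩, ?_, ?_⟩
  · obtain ⟨j, hj1, hj2⟩ : ∃ j : ℕ, Q < 2 ^ j ∧ 2 ^ j ≤ 2 * Q := by
      refine ⟨Nat.log 2 Q + 1, Nat.lt_pow_succ_log_self (by norm_num) Q, ?_⟩
      rw [pow_succ]
      have := Nat.pow_log_le_self 2 (by omega : Q ≠ 0)
      omega
    refine ⟨2 ^ j, ?_⟩
    rw [← hfil, mem_filter, mem_Ioc]
    refine ⟨⟨hj1, hj2⟩, fun p hp hpd => ?_⟩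
    have hp2 : p = 2 := (Nat.prime_dvd_prime_iff_eq hp Nat.prime_two).mp (hp.dvd_of_dvd_pow hpd)
    rw [hp2]
    exact ha3
  · rw [hfil] at ha4
    have e1 : ∑ q ∈ mods n Q a, S * (gg (hV (V n)) q / q) * (N : ℝ) =
        ∑ q ∈ mods n Q a, S * (N : ℝ) / (res n q).card := by
      refine sum_congr rfl fun q hq => ?_
      unfold mods at hq
      rw [mem_filter, mem_Ioc] at hq
      rw [gg_eq_res hne (by omega)]
      ring
    have e2 : ∑ q ∈ mods n Q a, cntW (W n N) N a q = ∑ q ∈ mods n Q a, th n q a N :=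
      sum_congr rfl fun q _ => cntW_eq le_rfl a q
    rw [e1, e2] at ha4
    exact ha4

end Pool.Agent.H537.TG
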