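import Pool.Agent.H537.TG.Core

/-! Goldbach pairs in progressions: both parities, the numbers of the pairs. -/

set_option autoImplicit false
set_option maxHeartbeats 4000000

open Finset Filter

namespace Pool.Agent.H537.TG

/-- the number of the primes `p ≤ n / 2`, `p ≡ a (mod q)`, for which `n - p` is prime -/
def prs (n q a : ℕ) : ℕ := ((Icc 1 (n / 2)).filter (fun p => p ≡ a [MOD q] ∧ p.Prime ∧ (n - p).Prime)).card

/-- upper bound for the weighted sum -/
theorem th_le {n q a : ℕ} (hn : 4 ≤ n) :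
    th n q a (n / 2) ≤ Real.log ((n / 2 : ℕ) : ℝ) * Real.log n * prs n q a := by
  unfold th prs
  rw [card_eq_sum_ones, Nat.cast_sum, mul_sum]
  apply sum_le_sum
  intro p hp
  rw [mem_filter, mem_Icc] at hp
  have hp1 : (1 : ℝ) ≤ p := by exact_mod_cast hp.1.1
  have hp2 : (p : ℝ) ≤ ((n / 2 : ℕ) : ℝ) := by exact_mod_cast hp.1.2
  have hq1 : (1 : ℝ) ≤ ((n - p : ℕ) : ℝ) := by
    have := hp.2.2.2.one_lt.le
    exact_mod_cast this
  have hq2 : ((n - p : ℕ) : ℝ) ≤ n := by exact_mod_cast Nat.sub_le _ _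
  rw [Nat.cast_one, mul_one]
  apply mul_le_mul
  · exact Real.log_le_log (by linarith) hp2
  · exact Real.log_le_log (by linarith) hq2
  · exact Real.log_nonneg hq1
  · exact Real.log_nonneg (hp1.trans hp2)

/-- lower bound for the weighted sum -/
theorem th_ge {n Q q a : ℕ} (hQ : 1 ≤ Q) (hq : Q < q) (haQ : a ≤ Q) (hQn : Q ≤ n / 2)
    (hp0 : ∃ p : ℕ, p.Prime ∧ p < a ∧ V n p a) :
    Real.log Q * Real.log ((n / 2 : ℕ) : ℝ) * prs n q a ≤ th n q a (n / 2) := by
  unfold th prs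
  rw [card_eq_sum_ones, Nat.cast_sum, mul_sum]
  apply sum_le_sum
  intro p hp
  rw [mem_filter, mem_Icc] at hp
  have hpQ : Q < p := by
    by_contra hc
    push Not at hc
    have h1 : p % q = a % q := hp.2.1
    rw [Nat.mod_eq_of_lt (by omega), Nat.mod_eq_of_lt (by omega)] at h1
    obtain ⟨r, hr1, hr2, hr3⟩ := hp0
    unfold V at hr3
    rcases Int.Prime.dvd_mul' hr1 hr3 with h | h
    · have := (Nat.prime_dvd_prime_iff_eq hr1 hp.2.2.1).mp (by rw [h1]; exact Int.natCast_dvd_natCast.mp h)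
      omega
    · have e1 : (n : ℤ) - a = ((n - p : ℕ) : ℤ) := by
        push_cast [show p ≤ n by omega]
        rw [h1]
      rw [e1, Int.natCast_dvd_natCast] at h
      have := (Nat.prime_dvd_prime_iff_eq hr1 hp.2.2.2).mp h
      omega
  have hQ0 : (1 : ℝ) ≤ Q := by exact_mod_cast hQ
  have hp1 : (Q : ℝ) ≤ p := by exact_mod_cast hpQ.le
  have hX1 : (1 : ℝ) ≤ ((n / 2 : ℕ) : ℝ) := by exact_mod_cast (show 1 ≤ n / 2 by omega)
  have hq2 : ((n / 2 : ℕ) : ℝ) ≤ ((n - p : ℕ) : ℝ) := by exact_mod_cast (show n / 2 ≤ n - p by omega)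
  rw [Nat.cast_one, mul_one]
  apply mul_le_mul
  · exact Real.log_le_log (by linarith) hp1
  · exact Real.log_le_log (by linarith) hq2
  · exact Real.log_nonneg hX1
  · exact Real.log_nonneg (hQ0.trans hp1)

/-- the expected number -/
noncomputable def expd (n q : ℕ) (S : ℝ) : ℝ :=
  S * ((n / 2 : ℕ) : ℝ) / (res n q).card / Real.log ((n / 2 : ℕ) : ℝ) ^ 2

/-- the moduli -/
noncomputable def mdl (B : ℝ) (n a : ℕ) : Finset ℕ :=
  mods n ⌊((n / 2 : ℕ) : ℝ) / Real.log ((n / 2 : ℕ) : ℝ) ^ B⌋₊ a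

theorem main (B ε : ℝ) (hB : 0 < B) (hε : 0 < ε) :
    ∃ h : ℝ, 0 < h ∧ ∃ X₀ : ℕ, ∀ n : ℕ, X₀ ≤ n → Even n → ∀ S : ℝ, 0 < S → SmallOk B h n S →
      (∃ a : ℕ, 1 ≤ a ∧ (a : ℝ) ≤ (n : ℝ) ^ ε ∧ 0 < ∑ q ∈ mdl B n a, expd n q S ∧
        (1 + h) * ∑ q ∈ mdl B n a, expd n q S ≤ ∑ q ∈ mdl B n a, (prs n q a : ℝ)) ∧
      ∃ a : ℕ, 1 ≤ a ∧ (a : ℝ) ≤ (n : ℝ) ^ ε ∧ 0 < ∑ q ∈ mdl B n a, expd n q S ∧
        ∑ q ∈ mdl B n a, (prs n q a : ℝ) ≤ (1 - h) * ∑ q ∈ mdl B n a, expd n q S := by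
  classical
  obtain ⟨K1, hK1⟩ := exists_nat_gt B
  have hK10 : (0 : ℝ) ≤ K1 := Nat.cast_nonneg _
  set ε' : ℝ := min ε (1 / 2) with hε'
  have hε'0 : 0 < ε' := lt_min hε (by norm_num)
  obtain ⟨η1, hη1, h1⟩ := one_par B ε' hB hε'0 (2 * (K1 + 1)) (by omega) (by push_cast; linarith)
  obtain ⟨η2, hη2, h2⟩ := one_par B ε' hB hε'0 (2 * (K1 + 1) + 1) (by omega) (by push_cast; linarith)
  set η : ℝ := min (min η1 η2) 1 with hηd
  have hη : 0 < η := lt_min (lt_min hη1 hη2) one_pos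
  have hηa : η ≤ η1 := (min_le_left _ _).trans (min_le_left _ _)
  have hηb : η ≤ η2 := (min_le_left _ _).trans (min_le_right _ _)
  have hηc : η ≤ 1 := min_le_right _ _
  obtain ⟨X1, hX1⟩ := h1 η hη hηa
  obtain ⟨X2, hX2⟩ := h2 η hη hηb
  -- the logarithms
  have hlogX : Tendsto (fun X : ℕ => Real.log (X : ℝ)) atTop atTop :=
    Real.tendsto_log_atTop.comp tendsto_natCast_atTop_atTop
  have t2 : ∀ᶠ L : ℝ in atTop, Real.log L ≤ η / (16 * (B + 1)) * L := by
    have h1 := Real.isLittleO_log_id_atTop.bound (c := η / (16 * (B + 1))) (by positivity)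
    filter_upwards [h1, eventually_ge_atTop (1 : ℝ)] with L h2 h3
    rw [id, Real.norm_of_nonneg (Real.log_nonneg h3), Real.norm_of_nonneg (by linarith)] at h2
    exact h2
  obtain ⟨X3, hX3⟩ := eventually_atTop.mp ((hlogX.eventually t2).and
    (hlogX.eventually_ge_atTop (32 / η + 10)))
  refine ⟨η / 4, by positivity, max (max X1 X2) (2 * X3 + 8), fun n hn hne S hS hsm => ?_⟩
  have hnX1 : X1 ≤ n := (le_max_left _ _).trans ((le_max_left _ _).trans hn)
  have hnX2 : X2 ≤ n := (le_max_right _ _).trans ((le_max_left _ _).trans hn)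
  have hnX3 : 2 * X3 + 8 ≤ n := (le_max_right _ _).trans hn
  obtain ⟨g1, g2⟩ := hX3 (n / 2) (by omega)
  have hsm' : SmallOk B η n S := by
    intro q a y hq hqL hg hy1 hy2
    refine (hsm q a y hq hqL hg hy1 hy2).trans ?_
    apply mul_le_mul_of_nonneg_right (by linarith)
    have := Nat.cast_nonneg (α := ℝ) y
    positivity
  set N := n / 2 with hN
  set L := Real.log (N : ℝ) with hL
  set Q := ⌊(N : ℝ) / L ^ B⌋₊ with hQ
  have hp32 : 0 < 32 / η := by positivity
  have hL10 : 10 ≤ L := by linarith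
  have hL0 : 0 < L := by linarith
  have hLη : 32 / η ≤ L := by linarith
  have hNnat : 4 ≤ N := by omega
  have hN0 : (0 : ℝ) < N := by exact_mod_cast (show 0 < N by omega)
  have hN1 : (1 : ℝ) ≤ N := by exact_mod_cast (show 1 ≤ N by omega)
  have hLB1 : 1 ≤ L ^ B := Real.one_le_rpow (by linarith) hB.le
  have hNn : (N : ℝ) ≤ n := by exact_mod_cast Nat.div_le_self n 2
  have hnN : (n : ℝ) ≤ 3 * N := by exact_mod_cast (show n ≤ 3 * N by omega)
  -- the bounds for the logarithms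
  have hlogn : Real.log n ≤ (1 + η / 8) * L := by
    have e1 : Real.log n ≤ Real.log (3 * N) := Real.log_le_log (by linarith) hnN
    rw [Real.log_mul (by norm_num) hN0.ne'] at e1
    have e2 : Real.log 3 ≤ 2 := by
      have h3 : Real.log 3 ≤ 3 - 1 := Real.log_le_sub_one_of_pos (by norm_num)
      linarith
    have e3 : 2 ≤ η / 8 * L := by
      rw [div_le_iff₀ hη] at hLη
      linarith
    linarith
  have hlogn0 : L ≤ Real.log n := Real.log_le_log hN0 hNn
  have hQle : Q ≤ N := by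
    have e1 : (Q : ℝ) ≤ (N : ℝ) / L ^ B := Nat.floor_le (by positivity)
    have e2 : (N : ℝ) / L ^ B ≤ N := div_le_self hN0.le hLB1
    exact_mod_cast e1.trans e2
  have hlogQ : 1 ≤ Q → (1 - η / 8) * L ≤ Real.log Q := by
    intro hQ1
    have hQ1' : (1 : ℝ) ≤ Q := by exact_mod_cast hQ1
    have e1 : (N : ℝ) / L ^ B < Q + 1 := Nat.lt_floor_add_one _
    have e2 : (N : ℝ) / L ^ B ≤ 2 * Q := by linarith
    have hLBpos : 0 < L ^ B := by positivity
    have e3 := Real.log_le_log (div_pos hN0 hLBpos) e2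
    rw [Real.log_div hN0.ne' hLBpos.ne', Real.log_rpow hL0,
      Real.log_mul (by norm_num) (by linarith), ← hL] at e3
    have e4 : Real.log 2 < 1 := Real.log_two_lt_d9.trans (by norm_num)
    have e5 : B * Real.log L ≤ η / 16 * L := by
      calc B * Real.log L ≤ (B + 1) * Real.log L := by
            apply mul_le_mul_of_nonneg_right (by linarith)
            exact Real.log_nonneg (by linarith)
        _ ≤ (B + 1) * (η / (16 * (B + 1)) * L) := mul_le_mul_of_nonneg_left g1 (by linarith)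
        _ = η / 16 * L := by
            field_simp
    have e6 : 1 ≤ η / 16 * L := by
      rw [div_le_iff₀ hη] at hLη
      linarith
    linarith
  have hNε : ∀ a : ℕ, (a : ℝ) ≤ (N : ℝ) ^ ε' → (a : ℝ) ≤ (n : ℝ) ^ ε := by
    intro a ha
    refine ha.trans ?_
    calc (N : ℝ) ^ ε' ≤ (N : ℝ) ^ ε := Real.rpow_le_rpow_of_exponent_le hN1 (min_le_left _ _)
      _ ≤ (n : ℝ) ^ ε := Real.rpow_le_rpow hN0.le hNn hε.le
  have hpos : ∀ a : ℕ, (mods n Q a).Nonempty → 1 ≤ Q → 0 < ∑ q ∈ mods n Q a, expd n q S := by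
    intro a ha hQ1
    refine sum_pos (fun q hq => ?_) ha
    unfold mods at hq
    rw [mem_filter, mem_Ioc] at hq
    have hr := res_pos hne (show 1 ≤ q by omega)
    have hr' : (0 : ℝ) < (res n q).card := by exact_mod_cast hr
    unfold expd
    positivity
  have hexp : ∀ a : ℕ, ∑ q ∈ mods n Q a, expd n q S =
      (∑ q ∈ mods n Q a, S * (N : ℝ) / (res n q).card) / L ^ 2 := by
    intro a
    rw [sum_div]
    rfl
  refine ⟨?_, ?_⟩
  · obtain ⟨a, ha1, ha2, ha3, ha4, ha5, ha6⟩ := hX1 n hnX1 hne S hS hsm'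
    rw [show ((-1 : ℝ)) ^ (2 * (K1 + 1)) = 1 by rw [pow_mul]; norm_num, one_mul] at ha6
    refine ⟨a, ha1, hNε a ha2, hpos a ha5 ha3, ?_⟩
    change (1 + η / 4) * ∑ q ∈ mods n Q a, expd n q S ≤ ∑ q ∈ mods n Q a, (prs n q a : ℝ)
    rw [hexp]
    set M := ∑ q ∈ mods n Q a, S * (N : ℝ) / (res n q).card with hM
    have hM0 : 0 ≤ M := sum_nonneg fun q _ => by positivity
    have e1 : (1 + η) * M ≤ ∑ q ∈ mods n Q a, th n q a N := by linarith
    have e2 : ∑ q ∈ mods n Q a, th n q a N ≤ L * Real.log n * ∑ q ∈ mods n Q a, (prs n q a : ℝ) := by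
      rw [mul_sum]
      exact sum_le_sum fun q _ => th_le (by omega)
    set P := ∑ q ∈ mods n Q a, (prs n q a : ℝ) with hP
    have hP0 : 0 ≤ P := sum_nonneg fun q _ => Nat.cast_nonneg _
    have e3 : L * Real.log n * P ≤ (1 + η / 8) * L ^ 2 * P := by
      apply mul_le_mul_of_nonneg_right _ hP0
      calc L * Real.log n ≤ L * ((1 + η / 8) * L) := mul_le_mul_of_nonneg_left hlogn hL0.le
        _ = _ := by ring
    have e4 : (1 + η) * M ≤ (1 + η / 8) * (L ^ 2 * P) := by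
      calc (1 + η) * M ≤ (1 + η / 8) * L ^ 2 * P := by linarith
        _ = _ := by ring
    have e5 : (1 + η / 8) * ((1 + η / 4) * M) ≤ (1 + η) * M := by
      have : (1 + η / 8) * (1 + η / 4) ≤ 1 + η := by nlinarith
      calc (1 + η / 8) * ((1 + η / 4) * M) = ((1 + η / 8) * (1 + η / 4)) * M := by ring
        _ ≤ (1 + η) * M := mul_le_mul_of_nonneg_right this hM0
    have e6 : (1 + η / 4) * M ≤ L ^ 2 * P := by
      have h8 : (0 : ℝ) < 1 + η / 8 := by positivity
      exact le_of_mul_le_mul_left (e5.trans e4) h8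
    rw [← mul_div_assoc, div_le_iff₀ (by positivity)]
    linarith
  · obtain ⟨a, ha1, ha2, ha3, ha4, ha5, ha6⟩ := hX2 n hnX2 hne S hS hsm'
    rw [show ((-1 : ℝ)) ^ (2 * (K1 + 1) + 1) = -1 by rw [pow_succ, pow_mul]; norm_num] at ha6
    refine ⟨a, ha1, hNε a ha2, hpos a ha5 ha3, ?_⟩
    change ∑ q ∈ mods n Q a, (prs n q a : ℝ) ≤ (1 - η / 4) * ∑ q ∈ mods n Q a, expd n q S
    rw [hexp]
    set M := ∑ q ∈ mods n Q a, S * (N : ℝ) / (res n q).card with hM
    have hM0 : 0 ≤ M := sum_nonneg fun q _ => by positivity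
    -- `a ≤ Q`
    have haQ : a ≤ Q := by
      have hQ1' : (1 : ℝ) ≤ Q := by exact_mod_cast ha3
      have hLB : L ^ B ≤ (N : ℝ) ^ (1 / 16 : ℝ) := by
        have hLBpos : 0 < L ^ B := by positivity
        rw [← Real.log_le_log_iff hLBpos (by positivity), Real.log_rpow hL0, Real.log_rpow hN0, ← hL]
        calc B * Real.log L ≤ (B + 1) * Real.log L := by
              apply mul_le_mul_of_nonneg_right (by linarith)
              exact Real.log_nonneg (by linarith)
          _ ≤ (B + 1) * (η / (16 * (B + 1)) * L) := mul_le_mul_of_nonneg_left g1 (by linarith)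
          _ = η / 16 * L := by
              field_simp
          _ ≤ 1 / 16 * L := mul_le_mul_of_nonneg_right (by linarith) hL0.le
      have hhalf : (a : ℝ) ≤ (N : ℝ) ^ (1 / 2 : ℝ) :=
        ha2.trans (Real.rpow_le_rpow_of_exponent_le hN1 (min_le_right _ _))
      have e7 : (N : ℝ) ^ (1 / 2 : ℝ) * L ^ B ≤ N := by
        calc (N : ℝ) ^ (1 / 2 : ℝ) * L ^ B ≤ (N : ℝ) ^ (1 / 2 : ℝ) * (N : ℝ) ^ (1 / 16 : ℝ) :=
              mul_le_mul_of_nonneg_left hLB (by positivity)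
          _ = (N : ℝ) ^ (1 / 2 + 1 / 16 : ℝ) := (Real.rpow_add hN0 _ _).symm
          _ ≤ (N : ℝ) ^ (1 : ℝ) := Real.rpow_le_rpow_of_exponent_le hN1 (by norm_num)
          _ = N := Real.rpow_one _
      have e8 : (a : ℝ) ≤ (N : ℝ) / L ^ B := by
        rw [le_div_iff₀ (by positivity)]
        exact (mul_le_mul_of_nonneg_right hhalf (by positivity)).trans e7
      exact Nat.le_floor e8
    have hlQ := hlogQ ha3
    set P := ∑ q ∈ mods n Q a, (prs n q a : ℝ) with hP
    have hP0 : 0 ≤ P := sum_nonneg fun q _ => Nat.cast_nonneg _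
    have e1 : ∑ q ∈ mods n Q a, th n q a N ≤ (1 - η) * M := by linarith
    have e2 : Real.log Q * L * P ≤ ∑ q ∈ mods n Q a, th n q a N := by
      rw [hP, mul_sum]
      refine sum_le_sum fun q hq => ?_
      unfold mods at hq
      rw [mem_filter, mem_Ioc] at hq
      exact th_ge ha3 hq.1.1 haQ hQle ha4
    have e3 : (1 - η / 8) * L ^ 2 * P ≤ Real.log Q * L * P := by
      apply mul_le_mul_of_nonneg_right _ hP0
      calc (1 - η / 8) * L ^ 2 = (1 - η / 8) * L * L := by ring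
        _ ≤ Real.log Q * L := mul_le_mul_of_nonneg_right hlQ hL0.le
    have e4 : (1 - η / 8) * (L ^ 2 * P) ≤ (1 - η) * M := by
      calc (1 - η / 8) * (L ^ 2 * P) = (1 - η / 8) * L ^ 2 * P := by ring
        _ ≤ _ := by linarith
    have e5 : (1 - η) * M ≤ (1 - η / 8) * ((1 - η / 4) * M) := by
      have : 1 - η ≤ (1 - η / 8) * (1 - η / 4) := by nlinarith
      calc (1 - η) * M ≤ ((1 - η / 8) * (1 - η / 4)) * M := mul_le_mul_of_nonneg_right this hM0
        _ = _ := by ring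
    have e6 : L ^ 2 * P ≤ (1 - η / 4) * M := by
      have h8 : (0 : ℝ) < 1 - η / 8 := by linarith
      exact le_of_mul_le_mul_left (e4.trans e5) h8
    rw [← mul_div_assoc, le_div_iff₀ (by positivity)]
    linarith

end Pool.Agent.H537.TG
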